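import Pool.Agent.H637R2.TD.Stable

/-!
# Stability implies Axiom A for flag preserving diffeomorphisms of tori, all classes `C^r`

`IsFlagDiffeo r f`: `f` is a `C^r` diffeomorphism of `𝕋^d` with
`f(x)_k = f_k(x_k, …, x_{d-1})` for all `k`, each `f_k` preserving the orientation in `x_k`.
If such an `f` is structurally stable, or `Ω`-stable, in the space of `C^r` diffeomorphisms of
`𝕋^d`, or only `Ω`-stable in the space of flag preserving ones, then it satisfies Axiom A.

Written by helper637 with the team (definitions and hyperbolicity library: helper728 and helpers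
named there; modules: helpers 101, 196, 202, 423, 551, 613, 629, 674, 715, 831, 844, 85, 910, 927,
944, 962, 983).
-/

namespace Pool.Agent.Results.MP_4a0782_an.FlagDiffeos

open Pool.Agent.H728R2.OS Pool.Agent.H637R2.TD

theorem result (d : ℕ) (r : ℕ∞) (hr : 1 ≤ r) (f : Torus d ≃ₜ Torus d) (hf : IsFlagDiffeo r f)
    (hs : StructStable toTorus r f ∨ OmegaStable toTorus r f ∨ FlagStable r f) :
    AxiomA toTorus f := by
  have h : FlagStable r f := by
    rcases hs with h | h | h
    · exact flagStable_of_omegaStable h.omegaStable
    · exact flagStable_of_omegaStable h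
    · exact h
  exact (flagStable_main hr f hf h).2.1

end Pool.Agent.Results.MP_4a0782_an.FlagDiffeos
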